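import Pool.Agent.Work.MP_e05d43_al.Final

/-!
The set of exponential growth rates of finitely generated groups is `[1, ∞)`.

The definitions follow the section `Setting and definitions` of the problem file clause by clause.
-/

set_option autoImplicit false
open scoped Pointwise
open Filter Topology

namespace Pool.Agent.Results.MP_e05d43_al.AllGrowthRates

universe u

/-- `IsWord S k γ`: the element `γ` is a product of `k` elements of `S ∪ S⁻¹`, that is the product of a list of length
`k` all of whose entries `g` satisfy `g ∈ S` or `g⁻¹ ∈ S`. -/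
def IsWord {Γ : Type u} [Group Γ] (S : Finset Γ) (k : ℕ) (γ : Γ) : Prop :=
  ∃ l : List Γ, l.length = k ∧ (∀ g ∈ l, g ∈ S ∨ g⁻¹ ∈ S) ∧ l.prod = γ

/-- The word length `ℓ_S(γ)`: the least `k ≥ 0` such that `γ` is a product of `k` elements of `S ∪ S⁻¹`. (Such a `k`
exists for every `γ` when `S` generates `Γ`.) -/
noncomputable def wordLength {Γ : Type u} [Group Γ] (S : Finset Γ) (γ : Γ) : ℕ :=
  sInf {k : ℕ | IsWord S k γ}

/-- The growth function `β(Γ,S;k)`: the number of `γ ∈ Γ` with `ℓ_S(γ) ≤ k`. -/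
noncomputable def growth {Γ : Type u} [Group Γ] (S : Finset Γ) (k : ℕ) : ℕ :=
  Nat.card {γ : Γ // wordLength S γ ≤ k}

/-- `IsGrowthRate S x`: the exponential growth rate `ω(Γ,S) = lim_{k → ∞} β(Γ,S;k)^{1/k}` exists and equals `x`. -/
def IsGrowthRate {Γ : Type u} [Group Γ] (S : Finset Γ) (x : ℝ) : Prop :=
  Tendsto (fun k : ℕ => (growth S k : ℝ) ^ ((1 : ℝ) / (k : ℝ))) atTop (𝓝 x)

/-- The set `Ω_n` of all numbers `ω(Γ,S)`, where `Γ` ranges over all groups (in the universe `u`) and `S` over all
generating sets of `Γ` with at most `n` elements. -/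
def OmegaN (n : ℕ) : Set ℝ :=
  {x : ℝ | ∃ (Γ : Type u) (_ : Group Γ) (S : Finset Γ),
    Subgroup.closure (S : Set Γ) = ⊤ ∧ S.card ≤ n ∧ IsGrowthRate S x}

/-- The set `Ω`, the union of the sets `Ω_n` over all integers `n ≥ 1`: the exponential growth rates of all pairs
(finitely generated group, finite generating set). -/
def Omega : Set ℝ := ⋃ (n : ℕ) (_ : 1 ≤ n), OmegaN.{u} n

section Aux

variable {Γ : Type u} [Group Γ]

/-- The ball of radius `k`. -/
theorem mem_ball_iff (S : Finset Γ) (k : ℕ) : ∀ γ : Γ,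
    γ ∈ (insert (1 : Γ) ((S : Set Γ) ∪ (S : Set Γ)⁻¹) : Set Γ) ^ k ↔ ∃ j, j ≤ k ∧ IsWord S j γ := by
  induction k with
  | zero =>
    intro γ
    rw [pow_zero, Set.mem_one]
    constructor
    · rintro rfl
      exact ⟨0, le_refl 0, [], rfl, by simp, rfl⟩
    · rintro ⟨j, hj, l, hl, -, hp⟩
      have : l = [] := List.length_eq_zero_iff.mp (by omega)
      subst this
      exact hp.symm
  | succ k ih =>
    intro γ
    rw [pow_succ']
    constructor
    · rintro ⟨a, ha, b, hb, rfl⟩
      obtain ⟨j, hj, l, hl, hS, hp⟩ := (ih b).1 hb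
      rcases ha with ha | ha | ha
      · refine ⟨j, by omega, l, hl, hS, ?_⟩
        simp [ha, hp]
      · refine ⟨j + 1, by omega, a :: l, by simp [hl], ?_, by simp [hp]⟩
        intro g hg
        rcases List.mem_cons.1 hg with rfl | hg
        · exact Or.inl (by simpa using ha)
        · exact hS g hg
      · refine ⟨j + 1, by omega, a :: l, by simp [hl], ?_, by simp [hp]⟩
        intro g hg
        rcases List.mem_cons.1 hg with rfl | hg
        · exact Or.inr (by simpa using ha)
        · exact hS g hg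
    · rintro ⟨j, hj, l, hl, hS, hp⟩
      rcases l with _ | ⟨a, l⟩
      · refine ⟨1, Or.inl rfl, 1, (ih 1).2 ⟨0, Nat.zero_le _, [], rfl, by simp, rfl⟩, ?_⟩
        simpa using hp
      · refine ⟨a, ?_, l.prod, (ih _).2 ⟨l.length, ?_, l, rfl, fun g hg => hS g (List.mem_cons_of_mem a hg), rfl⟩, ?_⟩
        · rcases hS a List.mem_cons_self with h | h
          · exact Or.inr (Or.inl (by simpa using h))
          · exact Or.inr (Or.inr (by simpa using h))
        · simp only [List.length_cons] at hl
          omega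
        · simpa using hp

/-- When `S` generates, every element is a word. -/
theorem exists_isWord (S : Finset Γ) (hS : Subgroup.closure (S : Set Γ) = ⊤) (γ : Γ) : ∃ k, IsWord S k γ := by
  have hγ : γ ∈ (Subgroup.closure (S : Set Γ)).toSubmonoid := by rw [hS]; exact Subgroup.mem_top γ
  rw [Subgroup.closure_toSubmonoid] at hγ
  obtain ⟨l, hl, hp⟩ := Submonoid.exists_list_of_mem_closure hγ
  exact ⟨l.length, l, rfl, fun g hg => by simpa using hl g hg, hp⟩

theorem wordLength_le_iff (S : Finset Γ) (hS : Subgroup.closure (S : Set Γ) = ⊤) (γ : Γ) (k : ℕ) :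
    wordLength S γ ≤ k ↔ ∃ j, j ≤ k ∧ IsWord S j γ := by
  constructor
  · intro h
    exact ⟨_, h, Nat.sInf_mem (exists_isWord S hS γ)⟩
  · rintro ⟨j, hj, hw⟩
    exact (Nat.sInf_le hw).trans hj

theorem growth_eq (S : Finset Γ) (hS : Subgroup.closure (S : Set Γ) = ⊤) (k : ℕ) :
    growth S k = ((insert (1 : Γ) ((S : Set Γ) ∪ (S : Set Γ)⁻¹) : Set Γ) ^ k).ncard := by
  unfold growth
  rw [← Nat.card_coe_set_eq]
  refine Nat.card_congr (Equiv.subtypeEquivRight fun γ => ?_)
  rw [wordLength_le_iff S hS, mem_ball_iff]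

end Aux

/-- Every exponential growth rate is at least `1`. -/
theorem one_le_of_mem {x : ℝ} (hx : x ∈ Omega.{u}) : 1 ≤ x := by
  unfold Omega at hx
  simp only [Set.mem_iUnion] at hx
  obtain ⟨n, -, Γ, _, S, hS, -, hx⟩ := hx
  refine ge_of_tendsto' hx fun k => ?_
  have hfin : (insert (1 : Γ) ((S : Set Γ) ∪ (S : Set Γ)⁻¹) : Set Γ).Finite :=
    (S.finite_toSet.union S.finite_toSet.inv).insert 1
  have hpos := Pool.Agent.Work.MP_e05d43_al.ncard_pow_pos hfin (Set.mem_insert _ _) k
  rw [← growth_eq S hS k] at hpos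
  exact Real.one_le_rpow (by exact_mod_cast hpos) (by positivity)

/-- **`Ω = [1, ∞)`.** Every real number `x ≥ 1` is the exponential growth rate of some group with respect to some
finite generating set, and no other real number is. The universe `u` of the groups is arbitrary. -/
theorem result : Omega.{u} = Set.Ici (1 : ℝ) := by
  refine Set.Subset.antisymm (fun x hx => one_le_of_mem hx) ?_
  intro x hx
  obtain ⟨Γ, _, S, hfin, hS, hlim⟩ := Pool.Agent.Work.MP_e05d43_al.main x hx
  classical
  let e : Γ ≃* ULift.{u} Γ := MulEquiv.ulift.symm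
  let S' : Finset (ULift.{u} Γ) := (hfin.image e).toFinset
  have hS'c : (S' : Set (ULift.{u} Γ)) = e '' S := (hfin.image e).coe_toFinset
  have hgen : Subgroup.closure (S' : Set (ULift.{u} Γ)) = ⊤ := by
    rw [hS'c]
    have h1 := MonoidHom.map_closure (e : Γ →* ULift.{u} Γ) S
    have h2 : (e : Γ →* ULift.{u} Γ) '' S = e '' S := rfl
    rw [← h2, ← h1, hS]
    exact Subgroup.map_top_of_surjective _ e.surjective
  unfold Omega
  simp only [Set.mem_iUnion]
  refine ⟨max 1 S'.card, le_max_left _ _, ULift.{u} Γ, inferInstance, S', hgen, le_max_right _ _, ?_⟩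
  unfold IsGrowthRate
  have hcard : ∀ k : ℕ, growth S' k = ((insert (1 : Γ) (S ∪ S⁻¹) : Set Γ) ^ k).ncard := by
    intro k
    rw [growth_eq S' hgen k, hS'c]
    have h1 : (insert (1 : ULift.{u} Γ) (e '' S ∪ (e '' S)⁻¹) : Set (ULift.{u} Γ)) =
        e '' (insert (1 : Γ) (S ∪ S⁻¹)) := by
      rw [Set.image_insert_eq, map_one, Set.image_union]
      congr 2
      ext y
      simp only [Set.mem_inv, Set.mem_image]
      constructor
      · rintro ⟨s, hs, hy⟩
        exact ⟨s⁻¹, by simpa using hs, by rw [map_inv, hy, inv_inv]⟩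
      · rintro ⟨s, hs, rfl⟩
        exact ⟨s⁻¹, hs, by rw [map_inv]⟩
    rw [h1, ← Set.image_pow, Set.ncard_image_of_injective _ e.injective]
  simp only [hcard]
  exact hlim

end Pool.Agent.Results.MP_e05d43_al.AllGrowthRates
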